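import Mathlib
import Pool.Agent.Helper54.CG.Goals

/-!
# CG-SC (packet 15371, helper1): weighted scaling
-/

set_option autoImplicit false

namespace Pool.Agent.Helper1.CG.SC

open MvPolynomial Pool.Agent.Helper16.Cusp Pool.Agent.Helper54.CG

/-- The scaling of polynomials. -/
noncomputable def S (t : ℂ) : R →ₐ[ℂ] R := aeval (fun i => C (t ^ wt i) * X i)

theorem wsm_apply (t : ℂ) (v : V) (i : Fin 3) : wsm t v i = t ^ wt i * v i := by
  fin_cases i <;> simp [wsm, wt]

theorem wsm_inv (t : ℂ) (ht : t ≠ 0) (v : V) : wsm t⁻¹ (wsm t v) = v := by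
  funext i
  rw [wsm_apply, wsm_apply, ← mul_assoc, ← mul_pow, inv_mul_cancel₀ ht, one_pow, one_mul]

theorem S_C (t a : ℂ) : S t (C a) = C a := by
  unfold S
  rw [aeval_C]
  rfl

theorem S_X (t : ℂ) (i : Fin 3) : S t (X i) = C (t ^ wt i) * X i := by
  unfold S
  rw [aeval_X]

theorem evS (t : ℂ) (v : V) (P : R) : eval v (S t P) = eval (wsm t v) P := by
  induction P using MvPolynomial.induction_on with
  | C a => rw [S_C, eval_C, eval_C]
  | add p q hp hq => rw [map_add, map_add, map_add, hp, hq]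
  | mul_X p i hp => rw [map_mul, map_mul, map_mul, hp, S_X, map_mul, eval_C, eval_X, eval_X, wsm_apply]

theorem pdS (t : ℂ) (i : Fin 3) (P : R) : pderiv i (S t P) = C (t ^ wt i) * S t (pderiv i P) := by
  induction P using MvPolynomial.induction_on with
  | C a => rw [S_C, pderiv_C, map_zero, mul_zero]
  | add p q hp hq => rw [map_add, map_add, map_add, map_add, hp, hq, mul_add]
  | mul_X p j hp =>
    rw [map_mul, Derivation.leibniz, hp, S_X, Derivation.leibniz, Derivation.leibniz, map_add]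
    simp only [smul_eq_mul, map_mul, pderiv_C, mul_zero, add_zero, S_X]
    by_cases h : i = j
    · subst h
      rw [pderiv_X_self]
      simp only [map_one]
      ring
    · rw [pderiv_X_of_ne (fun h' => h h'.symm)]
      simp only [map_zero, mul_zero]
      ring

theorem ddS (t : ℂ) (v u : V) (P : R) : dd (S t P) v u = dd P (wsm t v) (wsm t u) := by
  unfold dd
  apply Finset.sum_congr rfl
  intro i _
  rw [pdS, map_mul, eval_C, evS, wsm_apply]
  ring

theorem coeffS (t : ℂ) (P : R) (m : Fin 3 →₀ ℕ) :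
    coeff m (S t P) = t ^ (Finsupp.weight wt m) * coeff m P := by
  induction P using MvPolynomial.induction_on' with
  | monomial u a =>
    have h : S t (monomial u a) = C (t ^ (Finsupp.weight wt u)) * monomial u a := by
      unfold S
      rw [aeval_monomial, Finsupp.prod_fintype _ _ (fun i => pow_zero _)]
      simp only [mul_pow]
      rw [Finset.prod_mul_distrib]
      have h1 : ∏ i, (C (t ^ wt i) : R) ^ u i = C (t ^ (Finsupp.weight wt u)) := by
        simp only [← C_pow, ← pow_mul]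
        rw [← map_prod, Finset.prod_pow_eq_pow_sum]
        congr 2
        rw [Finsupp.weight_apply, Finsupp.sum_fintype _ _ (fun i => by simp)]
        apply Finset.sum_congr rfl
        intro i _
        simp [mul_comm]
      have h2 : ∏ i, (X i : R) ^ u i = monomial u 1 := by
        rw [monomial_eq, Finsupp.prod_fintype _ _ (fun i => pow_zero _), C_1, one_mul]
      rw [h1, h2]
      rw [show (algebraMap ℂ R) a = C a from rfl, mul_left_comm, C_mul_monomial, mul_one]
    rw [h, coeff_C_mul, coeff_monomial]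
    by_cases hu : u = m
    · subst hu; rfl
    · rw [if_neg hu, mul_zero, mul_zero]
  | add p q hp hq => rw [map_add, coeff_add, hp, hq, coeff_add, mul_add]

theorem homS (t : ℂ) (F : R) (n : ℕ) (hF : IsWeightedHomogeneous wt F n) :
    S t F = C (t ^ n) * F := by
  ext m
  rw [coeffS, coeff_C_mul]
  by_cases h : coeff m F = 0
  · rw [h, mul_zero, mul_zero]
  · rw [hF h]

theorem ev_inv (t : ℂ) (ht : t ≠ 0) (v : V) (P : R) :
    eval (wsm t v) (S t⁻¹ P) = eval v P := by
  rw [evS, wsm_inv t ht]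

theorem dd_inv (t : ℂ) (ht : t ≠ 0) (v u : V) (P : R) :
    dd (S t⁻¹ P) (wsm t v) (wsm t u) = dd P v u := by
  rw [ddS, wsm_inv t ht, wsm_inv t ht]

theorem hom_pM : IsWeightedHomogeneous wt pM 6 := by
  have hX : ∀ i : Fin 3, IsWeightedHomogeneous wt (X i : R) (wt i) :=
    fun i => isWeightedHomogeneous_X ℂ wt i
  have h0 : IsWeightedHomogeneous wt (X 0 : R) 1 := hX 0
  have h1 : IsWeightedHomogeneous wt (X 1 : R) 2 := hX 1
  have h2 : IsWeightedHomogeneous wt (X 2 : R) 1 := hX 2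
  have hC : ∀ a : ℂ, IsWeightedHomogeneous wt (C a : R) 0 := fun a => isWeightedHomogeneous_C wt a
  have e : pM = X 0 ^ 2 * X 1 ^ 2 + C (-4) * X 1 ^ 3 + C (-4) * (X 0 ^ 3 * X 2 ^ 3) +
      C 18 * (X 0 * X 1 * X 2 ^ 3) + C (-27) * X 2 ^ 6 := by
    unfold pM
    have c1 : (C (-4) : R) = -4 := by rw [map_neg]; rfl
    have c2 : (C 18 : R) = 18 := rfl
    have c3 : (C (-27) : R) = -27 := by rw [map_neg]; rfl
    rw [c1, c2, c3]
    ring
  rw [e]
  refine IsWeightedHomogeneous.add (IsWeightedHomogeneous.add (IsWeightedHomogeneous.add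
    (IsWeightedHomogeneous.add ?_ ?_) ?_) ?_) ?_
  · exact (h0.pow 2).mul (h1.pow 2)
  · exact (hC _).mul (h1.pow 3)
  · exact (hC _).mul ((h0.pow 3).mul (h2.pow 3))
  · exact (hC _).mul ((h0.mul h1).mul (h2.pow 3))
  · exact (hC _).mul (h2.pow 6)

theorem t : G_SC := by
  intro F n t v hF ht
  have hti : t⁻¹ ≠ 0 := inv_ne_zero ht
  refine ⟨?_, ?_, ?_, ?_⟩
  · rintro ⟨E, a, b, α, β, γ, h, hE, ha, hb, hα, hγ, ⟨u, hu1, hu2⟩, w, hw⟩
    refine ⟨C (t⁻¹ ^ n) * S t⁻¹ E, S t⁻¹ a, S t⁻¹ b, S t⁻¹ α, S t⁻¹ β, S t⁻¹ γ, ?_, ?_, ?_, ?_, ?_, ?_,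
      ⟨wsm t u, ?_, ?_⟩, wsm t w, ?_⟩
    · have := congrArg (S t⁻¹) h
      simp only [map_mul, map_add, map_pow] at this
      rw [← this, homS t⁻¹ F n hF]
      ring
    · rw [map_mul, eval_C, ev_inv t ht]
      exact mul_ne_zero (pow_ne_zero _ hti) hE
    · rw [ev_inv t ht, ha]
    · rw [ev_inv t ht, hb]
    · rw [ev_inv t ht]; exact hα
    · rw [ev_inv t ht]; exact hγ
    · rw [dd_inv t ht]; exact hu1
    · rw [dd_inv t ht]; exact hu2
    · rw [dd_inv t ht]; exact hw
  · rintro ⟨E, α, b, β, h, hE, hM, hb, hα, hβ, u, hu1, hu2⟩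
    have hMS : S t⁻¹ pM = C (t⁻¹ ^ 6) * pM := homS t⁻¹ pM 6 hom_pM
    have hM2 : pM = C (t ^ 6) * S t⁻¹ pM := by
      rw [hMS, ← mul_assoc, ← C_mul, ← mul_pow, mul_inv_cancel₀ ht, one_pow, C_1, one_mul]
    refine ⟨C (t⁻¹ ^ n) * S t⁻¹ E, C (t⁻¹ ^ 6) * S t⁻¹ α, S t⁻¹ b, S t⁻¹ β, ?_, ?_, ?_, ?_, ?_, ?_,
      wsm t u, ?_, ?_⟩
    · have := congrArg (S t⁻¹) h
      simp only [map_mul, map_add, map_pow] at this
      rw [homS t⁻¹ F n hF, hMS] at this
      linear_combination this
    · rw [map_mul, eval_C, ev_inv t ht]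
      exact mul_ne_zero (pow_ne_zero _ hti) hE
    · rw [hM2, map_mul, ev_inv t ht, hM, mul_zero]
    · rw [ev_inv t ht, hb]
    · rw [map_mul, eval_C, ev_inv t ht]
      exact mul_ne_zero (pow_ne_zero _ hti) hα
    · rw [ev_inv t ht]; exact hβ
    · have h1 : dd pM (wsm t v) (wsm t u) = t ^ 6 * dd pM v u := by
        rw [← ddS, homS t pM 6 hom_pM]
        unfold dd
        rw [Finset.mul_sum]
        apply Finset.sum_congr rfl
        intro i _
        rw [Derivation.leibniz, pderiv_C, smul_zero, add_zero, smul_eq_mul, map_mul, eval_C]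
        ring
      rw [h1, hu1, mul_zero]
    · rw [dd_inv t ht]; exact hu2
  · rw [← evS, homS t F n hF, map_mul, eval_C]
  · rintro ⟨i, hi⟩
    refine ⟨i, ?_⟩
    have h1 := pdS t i F
    rw [homS t F n hF, Derivation.leibniz, pderiv_C, smul_zero, add_zero, smul_eq_mul] at h1
    have h2 := congrArg (eval v) h1
    rw [map_mul, map_mul, eval_C, eval_C, evS] at h2
    intro h3
    rw [h3, mul_zero] at h2
    exact mul_ne_zero (pow_ne_zero _ ht) hi h2

end Pool.Agent.Helper1.CG.SC
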